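import Pool.Agent.H49.KT.Targets

/-! Module `BODY` of the board `kt_modules`. -/

namespace Pool.Agent.H49.KU

open Pool.Agent.H49.KT
open Turing Function

/-- number of stacks of the simulated machine -/
def cardK (U : BM) : ℕ :=
  haveI := U.tm.kFin
  Fintype.card U.tm.K

theorem hs_le {U : BM} (u : UU U) (M : ℕ) (h : ∀ k, (u k).length ≤ M) : hs U u ≤ cardK U * M := by
  have h1 := @Finset.sum_le_card_nsmul U.tm.K ℕ _ _ _ (@Finset.univ U.tm.K U.tm.kFin)
    (fun k => (u k).length) M (fun k _ => h k)
  rw [smul_eq_mul] at h1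
  exact h1

theorem ht_iter {U : BM} {B : ℕ} (hB : ∀ (c : CF U) (k : U.tm.K),
    ((fs U c).stk k).length ≤ (c.stk k).length + B ∧
    (c.stk k).length ≤ ((fs U c).stk k).length + B) (T : ℕ) (c : CF U) (k : U.tm.K) :
    (((fs U)^[T] c).stk k).length ≤ (c.stk k).length + B * T := by
  induction T with
  | zero => simp
  | succ T ih =>
    rw [Function.iterate_succ_apply']
    have := (hB ((fs U)^[T] c) k).1
    rw [Nat.mul_succ]
    omega

theorem ini_len {U : BM} (x : List Bool) (k : U.tm.K) :
    ((ini U x).stk k).length ≤ x.length := by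
  by_cases h : k = U.tm.k₀
  · subst h
    simp [ini]
  · simp [ini, update_of_ne h]

theorem pf_BODY : T_CLK → T_LD → T_STEP → T_HT → T_RC → T_CLU → T_CMP → T_INC → T_BODY := by
  intro hCLK hLD _ hHT hRC hCLU hCMP hINC U
  obtain ⟨BH, hBH⟩ := hHT U
  obtain ⟨BR, hBR⟩ := hRC U
  obtain ⟨BC, hBC⟩ := hCLU U
  refine ⟨100 + BR + 2 * (cardK U * BH) + 2 * cardK U + BC, ?_⟩
  intro v z m i P hyp hd
  obtain ⟨hm, hp, hm', hclk, hclk', hd', he, hq⟩ := hyp
  -- 1
  have s1 := sp_pushc v (E₀ U) z .all' true
  -- 2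
  set z1 := update z .all' (true :: z .all') with hz1
  have e1 : ∀ x : Nm, x ≠ .all' → z1 x = z x := fun x hx => update_of_ne hx _ _
  have z1d : z1 .d = ds i := (e1 .d (by decide)).trans hd
  obtain ⟨v2, hv2, s2⟩ := hCLK U v (E₀ U) z1 m ((e1 .m (by decide)).trans hm)
    ((e1 .m' (by decide)).trans hm') ((e1 .clk (by decide)).trans hclk)
    ((e1 .clk' (by decide)).trans hclk') ((e1 .d' (by decide)).trans hd')
    ((e1 .e (by decide)).trans he)
  rw [z1d] at s2
  set T := 2 ^ (m - (ds i).length) with hT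
  -- 3
  set z2 := update z1 .clk (un T) with hz2
  have e2 : ∀ x : Nm, x ≠ .clk → z2 x = z1 x := fun x hx => update_of_ne hx _ _
  have s3 := hLD U v2 (E₀ U) z2 (((e2 .d' (by decide)).trans (e1 .d' (by decide))).trans hd')
  rw [(e2 .d (by decide)).trans z1d] at s3
  have hu3 : (update (E₀ U) U.tm.k₀ ((ds i).reverse.map U.inputAlphabet.symm ++ E₀ U U.tm.k₀)) =
      (ini U (ds i).reverse).stk := by
    simp [E₀, ini]
    rfl
  rw [hu3] at s3
  -- 4
  have s4 := sp_load (v2.sa false) (ini U (ds i).reverse).stk z2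
    (fun v => v.slu (some U.tm.main) U.tm.initialState)
  set v4 := (v2.sa false).slu (some U.tm.main) U.tm.initialState with hv4
  -- 5
  have s5 := hBR v4 (ini U (ds i).reverse).stk z2 T (update_self _ _ _)
  have hini : (⟨v4.l, v4.u, (ini U (ds i).reverse).stk⟩ : CF U) = ini U (ds i).reverse := rfl
  rw [hini] at s5
  have hz3 : update z2 .clk [] = z1 := by
    rw [hz2, update_idem]
    rw [update_eq_iff]
    exact ⟨((e1 .clk (by decide)).trans hclk).symm, fun _ _ => rfl⟩
  rw [hz3] at s5
  -- 6
  set c5 := (fs U)^[T] (ini U (ds i).reverse) with hc5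
  obtain ⟨v6, hv6, s6⟩ := hCMP U (v4.slu c5.l c5.var) c5.stk z1 (oo U m i)
    ((e1 .q (by decide)).trans hq) rfl
  rw [(e1 .p (by decide)).trans hp, e1 .v1 (by decide), e1 .v0 (by decide)] at s6
  set u6 := update c5.stk U.tm.k₁ ((c5.stk U.tm.k₁).drop (P.length + 1)) with hu6
  set z6 := update (update z1 .v1 (if P ++ [true] <+: oo U m i then true :: z .v1 else z .v1))
    .v0 (if P ++ [false] <+: oo U m i then true :: z .v0 else z .v0) with hz6
  -- 7
  have s7 := hBC v6 u6 z6
  -- 8
  have e6 : ∀ x : Nm, x ≠ .v0 → x ≠ .v1 → z6 x = z1 x := fun x hx hx' => by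
    rw [hz6, update_of_ne hx, update_of_ne hx']
  obtain ⟨v8, hv8, s8⟩ := hINC U (v6.slu none U.tm.initialState) (E₀ U) z6
    (((e6 .d' (by decide) (by decide)).trans (e1 .d' (by decide))).trans hd')
  have z6d : z6 .d = ds i := (e6 .d (by decide) (by decide)).trans z1d
  rw [z6d] at s8
  have hdi : sc (ds i) = ds (i + 1) := (Function.iterate_succ_apply' sc i []).symm
  rw [hdi] at s8
  have hfin : update z6 .d (ds (i + 1)) = (update (update (update (update z .all' (true :: z .all'))
        .d (ds (i + 1)))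
        .v1 (if P ++ [true] <+: oo U m i then true :: z .v1 else z .v1))
        .v0 (if P ++ [false] <+: oo U m i then true :: z .v0 else z .v0)) := by
    rw [hz6, hz1]
    rw [update_comm (show (Nm.v0 : Nm) ≠ .d by decide), update_comm (show (Nm.v1 : Nm) ≠ .d by decide)]
  rw [hfin] at s8
  refine ⟨v8, ?_, ?_⟩
  · refine ⟨hv8.1, hv8.2.1, hv8.2.2.trans ?_⟩
    have h1 : (v6.slu none U.tm.initialState).mode = v6.mode := rfl
    rw [h1, hv6.2.2]
    exact hv2.2.2
  · have S := s1.seq (s2.seq (s3.seq (s4.seq (s5.seq (s6.seq (s7.seq s8))))))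
    refine Spec.mono (c := body) S ?_
    have hh : hs U u6 ≤ cardK U * ((ds i).length + BH * T) := by
      refine hs_le _ _ (fun k => ?_)
      have h1 : (c5.stk k).length ≤ (ds i).length + BH * T := by
        have : (c5.stk k).length ≤ _ := ht_iter hBH T (ini U (ds i).reverse) k
        have h2 := ini_len (U := U) (ds i).reverse k
        rw [List.length_reverse] at h2
        omega
      by_cases hk : k = U.tm.k₁
      · subst hk
        rw [hu6, update_self, List.length_drop]
        omega
      · rw [hu6, update_of_ne hk]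
        exact h1
    have hh2 : cardK U * ((ds i).length + BH * T) =
        cardK U * (ds i).length + cardK U * BH * T := by ring
    rw [hh2] at hh
    set D := (ds i).length
    set κ := cardK U
    have hX : (100 + BR + 2 * (κ * BH) + 2 * κ + BC) * (T + m + D + P.length + 1) =
        100 * (T + m + D + P.length + 1) + BR * T + BR * (m + D + P.length + 1) +
        2 * (κ * BH * T) + 2 * (κ * BH) * (m + D + P.length + 1) + 2 * (κ * D) +
        2 * κ * (T + m + P.length + 1) + BC + BC * (T + m + D + P.length) := by ring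
    rw [hX]
    have a1 : 0 ≤ BR * (m + D + P.length + 1) := Nat.zero_le _
    have a2 : 0 ≤ 2 * (κ * BH) * (m + D + P.length + 1) := Nat.zero_le _
    have a3 : 0 ≤ 2 * κ * (T + m + P.length + 1) := Nat.zero_le _
    have a4 : 0 ≤ BC * (T + m + D + P.length) := Nat.zero_le _
    generalize BR * (m + D + P.length + 1) = q1 at *
    generalize 2 * (κ * BH) * (m + D + P.length + 1) = q2 at *
    generalize 2 * κ * (T + m + P.length + 1) = q3 at *
    generalize BC * (T + m + D + P.length) = q4 at *
    generalize κ * BH * T = q5 at *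
    generalize κ * D = q6 at *
    generalize BR * T = q7 at *
    omega

end Pool.Agent.H49.KU
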