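import Pool.Agent.H49.KT.Targets

/-! Module `SPC` of the board `kt_modules`. -/

namespace Pool.Agent.H49.KU

open Pool.Agent.H49.KT
open Turing Function

theorem gr_len (U : BM) (m r : ℕ) : ∀ P : List Bool, (gr U m r P).length = P.length + r := by
  induction r with
  | zero => intro P; rfl
  | succ r ih =>
    intro P
    rw [gr, ih, List.length_append, List.length_singleton]
    omega

/-- sizes of the state of the parser -/
theorem foldl_size (x : List Bool) : ∀ s : PS, (x.foldl pstep s).lam ≤ s.lam + x.length ∧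
    (x.foldl pstep s).pr.length ≤ s.pr.length + 2 * x.length ∧
    (x.foldl pstep s).cr.length ≤ s.cr.length + x.length := by
  induction x with
  | nil => intro s; simp
  | cons a x ih =>
    intro s
    rw [List.foldl_cons, List.length_cons]
    have h := ih (pstep s a)
    have h2 : (pstep s a).lam ≤ s.lam + 1 ∧ (pstep s a).pr.length ≤ s.pr.length + 2 ∧
        (pstep s a).cr.length ≤ s.cr.length + 1 := by
      unfold pstep
      split_ifs <;> simp
    omega

theorem pf_SPC : T_PAR → T_PRE → T_RNS → T_ALL → T_ML → T_FIN → T_SPC := by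
  intro hPAR hPRE hRNS hALL hML hFIN U
  obtain ⟨BM', hBM⟩ := hML U
  obtain ⟨BF, hBF⟩ := hFIN U
  refine ⟨100 + 2 * BM' + 6 * BF, ?_⟩
  intro v x hmode hl hu
  set s := prs x with hs
  set n := s.n with hn
  set lam := s.lam with hlam
  set m := n - 5 * lam with hm
  set r := n - s.pr.length with hr
  set P := s.pr.reverse with hP
  -- 1
  obtain ⟨v1, hv1l, hv1u, hv1m, s1⟩ := hPAR U v (E₀ U) (update z₀ .inp x) x (update_self _ _ _)
    rfl rfl rfl rfl rfl hmode
  set z1 := (update (update (update (update (update (update z₀ .inp x) .inp []) .cr (prs x).cr)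
        .pr (prs x).pr) .n (un (prs x).n)) .lam (un (prs x).lam)) with hz1
  -- 2
  obtain ⟨v2, hv2, s2⟩ := hPRE U v1 (E₀ U) z1 n lam rfl rfl rfl rfl
  set z2 := (update (update z1 .lam []) .m (un (n - 5 * lam))) with hz2
  -- 3
  have z2pr : z2 .pr = s.pr := rfl
  obtain ⟨v3, hv3, s3⟩ := hRNS U v2 (E₀ U) z2 n rfl rfl
  rw [z2pr] at s3
  set z3 := update z2 .n (un (n - s.pr.length)) with hz3
  -- 4
  have s4 := hALL U v3 (E₀ U) z3 m rfl rfl rfl rfl
  set z4 := update z3 .all (un (2 ^ (m + 1))) with hz4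
  -- 5
  have hv3l : (v3.sa false).l = none := by
    show v3.l = none
    rw [hv3.1, hv2.1, hv1l, hl]
  have hv3u : (v3.sa false).u = U.tm.initialState := by
    show v3.u = _
    rw [hv3.2.1, hv2.2.1, hv1u, hu]
  have hv3m : (v3.sa false).mode = s.mode := by
    show v3.mode = _
    rw [hv3.2.2, hv2.2.2, hv1m]
  have hPr : z4 .pr = P.reverse := by
    rw [hP, List.reverse_reverse]
    rfl
  obtain ⟨v5, hv5, s5⟩ := hBM (v3.sa false) z4 m r P
    ⟨rfl, hPr, rfl, rfl, rfl, rfl, rfl, rfl, rfl, rfl, rfl, rfl, rfl, rfl⟩ rfl hv3l hv3u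
  -- 6
  have hz5 : update (update z4 .n []) .pr (gr U m r P).reverse =
      update (update (update (update z₀ .pr (gr U m r P).reverse) .cr (s.cr.reverse).reverse)
        .m (un m)) .all (un (2 ^ (m + 1))) := by
    rw [List.reverse_reverse]
    funext y
    cases y <;> rfl
  rw [hz5] at s5
  obtain ⟨v6, s6⟩ := hBF v5 m (2 ^ (m + 1)) s.cr.reverse (gr U m r P)
  have hso : (if acc U (2 ^ m) (s.cr.reverse ++ gr U m r P) && (v5.mode == 2) then gr U m r P
      else []) = so U x := by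
    rw [hv5.2.2, hv3m]
    rfl
  rw [hso] at s6
  refine ⟨v6, ?_⟩
  have S := s1.seq (s2.seq (s3.seq (s4.seq (s5.seq s6))))
  refine Spec.mono (c := special) S ?_
  -- costs
  obtain ⟨g1, g2, g3⟩ := foldl_size x ⟨0, [], [], 0, 0⟩
  have g1' : lam ≤ x.length := le_of_le_of_eq g1 (Nat.zero_add _)
  have g2' : s.pr.length ≤ 2 * x.length := le_of_le_of_eq g2 (Nat.zero_add _)
  have g3' : s.cr.length ≤ x.length := le_of_le_of_eq g3 (Nat.zero_add _)
  rw [gr_len]
  have hPl : P.length = s.pr.length := by rw [hP, List.length_reverse]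
  rw [hPl]
  set X := x.length + n + 2 with hX
  set Q := 2 ^ m with hQ
  have hQ1 : 1 ≤ Q := Nat.one_le_two_pow
  have hX1 : 1 ≤ X := by omega
  have hA : 2 ^ (m + 1) = 2 * Q := by rw [pow_succ]; ring
  rw [hA]
  have hmn : m ≤ n := Nat.sub_le _ _
  have hrn : r ≤ n := Nat.sub_le _ _
  set Y := X ^ 3 * Q with hY
  have hXX : X ≤ X ^ 2 := by nlinarith
  have hX2 : X ^ 2 ≤ X ^ 3 := by nlinarith
  have hX3 : X ^ 3 ≤ Y := Nat.le_mul_of_pos_right _ hQ1
  have hQY : Q ≤ Y := Nat.le_mul_of_pos_left _ (by positivity)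
  have hX2Q : X ^ 2 * Q ≤ Y := Nat.mul_le_mul_right _ hX2
  have c1 : 20 * (x.length + 1) * ((prs x).n + 1) ≤ 20 * Y := by
    have hn2 : (prs x).n = n := rfl
    rw [hn2]
    have : (x.length + 1) * (n + 1) ≤ X * X := Nat.mul_le_mul (by omega) (by omega)
    nlinarith
  have c5 : r * (m + s.pr.length + r + 1) * Q ≤ 2 * Y := by
    have h1 : r * (m + s.pr.length + r + 1) ≤ X * (2 * X) :=
      Nat.mul_le_mul (by omega) (by omega)
    have h2 : r * (m + s.pr.length + r + 1) * Q ≤ X * (2 * X) * Q := Nat.mul_le_mul_right _ h1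
    have h3 : X * (2 * X) * Q = 2 * (X ^ 2 * Q) := by ring
    omega
  have c5' : BM' * (r * (m + s.pr.length + r + 1) * Q) ≤ BM' * (2 * Y) :=
    Nat.mul_le_mul_left _ c5
  have c6 : BF * (Q + m + (s.pr.length + r) + s.cr.length + 2 * Q + 1) ≤ BF * (6 * Y) :=
    Nat.mul_le_mul_left _ (by omega)
  have hfin : (100 + 2 * BM' + 6 * BF) * X ^ 3 * Q = 100 * Y + BM' * (2 * Y) + BF * (6 * Y) := by
    rw [hY]; ring
  have hcr : s.cr.reverse.length = s.cr.length := List.length_reverse
  rw [hfin, hcr]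
  omega

end Pool.Agent.H49.KU
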