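import Pool.Agent.H49.KT.MAIN
import Pool.Agent.H49.KU.BODY
import Pool.Agent.H49.KU.SPC
import Pool.Agent.H17.KT.ALL
import Pool.Agent.H17.KT.CHO
import Pool.Agent.H17.KT.ME
import Pool.Agent.H19.KT.RUN
import Pool.Agent.H19.KT.ST1
import Pool.Agent.H19.KT.TAB
import Pool.Agent.H22.KT.DIV
import Pool.Agent.H22.KT.MO
import Pool.Agent.H22.KT.ORD
import Pool.Agent.H30.KT.BL
import Pool.Agent.H30.KT.MS
import Pool.Agent.H30.KT.NEW
import Pool.Agent.H31.KT.IS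
import Pool.Agent.H31.KT.P4
import Pool.Agent.H33.KT.P3
import Pool.Agent.H34.KT.CD
import Pool.Agent.H34.KT.QS
import Pool.Agent.H34.KT.SCH
import Pool.Agent.H4.KT.CMP
import Pool.Agent.H4.KT.FIN
import Pool.Agent.H4.KT.LOW
import Pool.Agent.H4.KT.PAR
import Pool.Agent.H43.KT.CLK
import Pool.Agent.H43.KT.OT
import Pool.Agent.H47.KT.OUP
import Pool.Agent.H47.KT.UU
import Pool.Agent.H48.KT.GR
import Pool.Agent.H48.KT.WFS
import Pool.Agent.H52.KT.OUT
import Pool.Agent.H54.KT.AUX1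
import Pool.Agent.H54.KT.EN
import Pool.Agent.H54.KT.STEP
import Pool.Agent.H54.KT.UNI
import Pool.Agent.H56.KT.CLU
import Pool.Agent.H56.KT.RC
import Pool.Agent.H59.KT.ASY
import Pool.Agent.H59.KT.GEN
import Pool.Agent.H59.KT.RND
import Pool.Agent.H64.KT.ML
import Pool.Agent.H64.KT.SIM
import Pool.Agent.H65.KT.P1
import Pool.Agent.H65.KT.P2
import Pool.Agent.H66.KT.NP
import Pool.Agent.H66.KT.PRE
import Pool.Agent.H66.KT.RNS
import Pool.Agent.H67.KT.HT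
import Pool.Agent.H67.KT.LD
import Pool.Agent.H67.KT.SYF
import Pool.Agent.H68.KT.DBL
import Pool.Agent.H68.KT.POW
import Pool.Agent.H74.KT.INC
import Pool.Agent.H81.KT.DS
import Pool.Agent.H81.KT.MA
import Pool.Agent.H81.KT.PRS
import Pool.Agent.H81.KT.WFU
import Pool.Agent.H84.KT.DEC

/-!
Assembly of the boards `kt_modules` and `kt2_modules`.
-/

namespace Pool.Agent.H49.KU

open Pool.Agent.H49.KT

theorem all_DBL : T_DBL := Pool.Agent.H68.KT.pf_DBL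
theorem all_POW : T_POW := Pool.Agent.H68.KT.pf_POW all_DBL
theorem all_CLK : T_CLK := Pool.Agent.H43.KT.pf_CLK all_DBL
theorem all_LD : T_LD := Pool.Agent.H67.KT.pf_LD
theorem all_STEP : T_STEP := Pool.Agent.H54.KT.pf_STEP
theorem all_HT : T_HT := Pool.Agent.H67.KT.pf_HT
theorem all_RC : T_RC := Pool.Agent.H56.KT.pf_RC all_STEP
theorem all_CLU : T_CLU := Pool.Agent.H56.KT.pf_CLU
theorem all_CMP : T_CMP := Pool.Agent.H4.KT.pf_CMP
theorem all_INC : T_INC := Pool.Agent.H74.KT.pf_INC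
theorem all_BODY : T_BODY :=
  pf_BODY all_CLK all_LD all_STEP all_HT all_RC all_CLU all_CMP all_INC
theorem all_BL : T_BL := Pool.Agent.H30.KT.pf_BL all_BODY
theorem all_CHO : T_CHO := Pool.Agent.H17.KT.pf_CHO
theorem all_DS : T_DS := Pool.Agent.H81.KT.pf_DS
theorem all_RND : T_RND := Pool.Agent.H59.KT.pf_RND all_BL all_CHO all_DS
theorem all_ML : T_ML := Pool.Agent.H64.KT.pf_ML all_RND
theorem all_PAR : T_PAR := Pool.Agent.H4.KT.pf_PAR all_DBL
theorem all_PRE : T_PRE := Pool.Agent.H66.KT.pf_PRE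
theorem all_RNS : T_RNS := Pool.Agent.H66.KT.pf_RNS
theorem all_ALL : T_ALL := Pool.Agent.H17.KT.pf_ALL all_POW
theorem all_FIN : T_FIN := Pool.Agent.H4.KT.pf_FIN all_CLK all_RC all_CLU all_HT all_STEP
theorem all_SPC : T_SPC := pf_SPC all_PAR all_PRE all_RNS all_ALL all_ML all_FIN
theorem all_WFS : T_WFS := Pool.Agent.H48.KT.pf_WFS
theorem all_MS : T_MS := Pool.Agent.H30.KT.pf_MS all_SPC all_WFS
theorem all_OT : T_OT := Pool.Agent.H43.KT.pf_OT
theorem all_ORD : T_ORD := Pool.Agent.H22.KT.pf_ORD all_OT all_STEP all_HT all_CLU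
theorem all_DIV : T_DIV := Pool.Agent.H22.KT.pf_DIV all_STEP
theorem all_MO : T_MO := Pool.Agent.H22.KT.pf_MO all_ORD all_DIV
theorem all_ME : T_ME := Pool.Agent.H17.KT.pf_ME
theorem all_OUT : T_OUT := Pool.Agent.H52.KT.pf_OUT all_HT
theorem all_SIM : T_SIM := Pool.Agent.H64.KT.pf_SIM all_OUT all_MO
theorem all_UNI : T_UNI := Pool.Agent.H54.KT.pf_UNI all_OUT all_SIM
theorem all_GR : T_GR := Pool.Agent.H48.KT.pf_GR
theorem all_PRS : T_PRS := Pool.Agent.H81.KT.pf_PRS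
theorem all_NEW : T_NEW := Pool.Agent.H30.KT.pf_NEW all_DS all_GR all_PRS
theorem all_ASY : T_ASY := Pool.Agent.H59.KT.pf_ASY
theorem all_LOW : T_LOW :=
  Pool.Agent.H4.KT.pf_LOW all_OUT all_MS all_MO all_ME all_NEW all_PRS all_GR all_ASY
theorem all_NP : T_NP := Pool.Agent.H66.KT.pf_NP

theorem all_main : Main := pf_MAIN all_UNI all_SIM all_LOW all_NP

open Pool.Agent.H49.KT.Uni

theorem all_QS : T_QS := Pool.Agent.H34.KT.pf_QS
theorem all_SYF : T_SYF := Pool.Agent.H67.KT.pf_SYF all_QS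
theorem all_CD : T_CD := Pool.Agent.H34.KT.pf_CD all_SYF
theorem all_SCH : T_SCH := Pool.Agent.H34.KT.pf_SCH all_QS all_CD
theorem all_EN : T_EN := Pool.Agent.H54.KT.pf_EN
theorem all_GEN : T_GEN := Pool.Agent.H59.KT.pf_GEN all_EN
theorem all_ST1 : T_ST1 := Pool.Agent.H19.KT.pf_ST1 all_EN
theorem all_AUX : T_AUX := Pool.Agent.H54.KT.pf_AUX all_QS all_EN all_GEN
theorem all_TAB : T_TAB := Pool.Agent.H19.KT.pf_TAB all_OUT all_SCH all_EN all_ST1 all_AUX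
theorem all_P1 : T_P1 := Pool.Agent.H65.KT.P1.pf_P1
theorem all_P2 : T_P2 := Pool.Agent.H65.KT.P2.pf_P2
theorem all_P3 : T_P3 := Pool.Agent.H33.KT.pf_P3
theorem all_P4 : T_P4 := Pool.Agent.H31.KT.pf_P4
theorem all_IS : T_IS := Pool.Agent.H31.KT.pf_IS all_P1 all_P2 all_P3 all_P4
theorem all_RUN : T_RUN := Pool.Agent.H19.KT.pf_RUN all_IS
theorem all_DEC : T_DEC := Pool.Agent.H84.KT.pf_DEC
theorem all_OUP : T_OUP := Pool.Agent.H47.KT.pf_OUP
theorem all_WFU : T_WFU := Pool.Agent.H81.KT.pf_WFU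
theorem all_MA : T_MA := Pool.Agent.H81.KT.pf_MA all_DEC all_RUN all_OUP all_WFU
theorem all_UU : T_UU := Pool.Agent.H47.KT.pf_UU all_TAB all_MA

theorem all_main2 : Main2 := ⟨⟨uni, all_UU⟩, all_main⟩

end Pool.Agent.H49.KU
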