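import Pool.Agent.H61.KU.TB

set_option autoImplicit false

open Topology Set
open Pool.Agent.H59 Pool.Agent.H64.LB Pool.Agent.H61.KU

namespace Pool.Agent.H49.KU.B2

theorem pf_b2 (h3 : T_T3) (hP : T_P1) (hV : T_FCV) : T_B2 := by
  intro ι _ _ f v hs T T' hT hT' hd
  obtain ⟨_, α, hα, hα'⟩ := hP ι f v hs T hT
  obtain ⟨_, β, hβ, hβ'⟩ := hP ι f v hs T' hT'
  have h1 : cv v T ∩ cv v T' = cv v (T ∩ T') := (hV ι v).2.1 T T' hT.1 hT'.1
  rw [Finset.disjoint_iff_inter_eq_empty.1 hd] at h1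
  have h2 : cv v (∅ : Finset ι) = ∅ := by simp [cv]
  rw [h2] at h1
  refine h3 α β ?_ hα hβ
  intro s t hst
  have h4 : f (α s) ∈ cv v T ∩ cv v T' := ⟨hα' s, by rw [hst]; exact hβ' t⟩
  rw [h1] at h4
  exact h4

end Pool.Agent.H49.KU.B2
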