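import Pool.Agent.H61.KU.TB

set_option autoImplicit false

open Topology Set
open Pool.Agent.H59 Pool.Agent.H64.LB Pool.Agent.H61.KU

namespace Pool.Agent.H49.KU.LO1

/-- the directions in the hyperplane of sum zero -/
def D (x : Fin 4 → ℝ) (j : Fin 5) : ℝ :=
  Fin.lastCases (motive := fun _ => ℝ) (-∑ i, x i) (fun i => x i) j

theorem D_last (x : Fin 4 → ℝ) : D x (Fin.last 4) = -∑ i, x i := by
  unfold D; exact Fin.lastCases_last

theorem D_cast (x : Fin 4 → ℝ) (i : Fin 4) : D x i.castSucc = x i := by
  unfold D; exact Fin.lastCases_castSucc i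

theorem D_sum (x : Fin 4 → ℝ) : ∑ j, D x j = 0 := by
  rw [Fin.sum_univ_castSucc, D_last]
  simp [D_cast]

theorem D_zero (j : Fin 5) : D 0 j = 0 := by
  refine Fin.lastCases ?_ (fun i => ?_) j
  · rw [D_last]; simp
  · rw [D_cast]; rfl

theorem D_cont (j : Fin 5) : Continuous (fun x : Fin 4 → ℝ => D x j) := by
  refine Fin.lastCases ?_ (fun i => ?_) j
  · simp only [D_last]; fun_prop
  · simp only [D_cast]; fun_prop

theorem D_inj (x y : Fin 4 → ℝ) (h : ∀ j, D x j = D y j) : x = y := by
  funext i
  have := h i.castSucc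
  rwa [D_cast, D_cast] at this

theorem pf_lo1 (hD : T_DOX) (hL : T_LFT) : T_LO1 := by
  intro f v G w y hf hv hG hcv hw hw0 hw1 hy
  set k : Fin 5 ↪o Fin 9 := G.orderEmbOfFin hG with hk
  have hkG : ∀ j, k j ∈ G := fun j => Finset.orderEmbOfFin_mem G hG j
  have himg : G = Finset.univ.map k.toEmbedding := by
    rw [hk]; exact (Finset.map_orderEmbOfFin_univ G hG).symm
  have hsum : ∑ j, w (k j) = 1 := by
    rw [← hw1]
    have h1 : ∑ i, w i = ∑ i ∈ G, w i := by
      symm
      apply Finset.sum_subset (Finset.subset_univ G)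
      intro i _ hi
      exact hw0 i hi
    rw [h1, himg, Finset.sum_map]
    rfl
  have hsumv : ∑ j, w (k j) • v (k j) = f y := by
    rw [hy]
    have h1 : ∑ i, w i • v i = ∑ i ∈ G, w i • v i := by
      symm
      apply Finset.sum_subset (Finset.subset_univ G)
      intro i _ hi
      rw [hw0 i hi, zero_smul]
    rw [h1, himg, Finset.sum_map]
    rfl
  set U : Set (Fin 4 → ℝ) := {x | ∀ j, 0 < w (k j) + D x j} with hU
  have hUo : IsOpen U := by
    have : U = ⋂ j, {x | 0 < w (k j) + D x j} := by ext x; simp [hU]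
    rw [this]
    apply isOpen_iInter_of_finite
    intro j
    exact isOpen_lt continuous_const (continuous_const.add (D_cont j))
  set φ : (Fin 4 → ℝ) → E8 := fun x => ∑ j, (w (k j) + D x j) • v (k j) with hφ
  have hφc : Continuous φ := by
    apply continuous_finsetSum
    intro j _
    exact (continuous_const.add (D_cont j)).smul continuous_const
  have hφG : ∀ x ∈ U, φ x ∈ cv v G := by
    intro x hx
    apply Convex.sum_mem (convex_convexHull ℝ _)
    · intro j _
      exact (hx j).le
    · rw [Finset.sum_add_distrib, hsum, D_sum, add_zero]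
    · intro j _
      exact subset_convexHull ℝ _ ⟨k j, hkG j, rfl⟩
  obtain ⟨ψ, hψ⟩ := hL f hf U ⟨fun t => φ t.1, hφc.comp continuous_subtype_val⟩
    (fun t => hcv (hφG t.1 t.2))
  classical
  set g : (Fin 4 → ℝ) → PN 2 := fun x => if h : x ∈ U then ψ ⟨x, h⟩ else y with hg
  have hgU : ∀ x (hx : x ∈ U), g x = ψ ⟨x, hx⟩ := by
    intro x hx
    simp only [hg]
    rw [dif_pos hx]
  have hfg : ∀ x ∈ U, f (g x) = φ x := by
    intro x hx
    rw [hgU x hx]
    exact hψ ⟨x, hx⟩
  have hgc : ContinuousOn g U := by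
    rw [continuousOn_iff_continuous_domRestrict]
    have : U.domRestrict g = ψ := by
      funext t
      exact hgU t.1 t.2
    rw [this]
    exact ψ.continuous
  have hind : AffineIndependent ℝ (v ∘ k.toEmbedding) := hv.comp_embedding k.toEmbedding
  have hgi : InjOn g U := by
    intro x hx x' hx' hxx
    have h1 : φ x = φ x' := by rw [← hfg x hx, ← hfg x' hx', hxx]
    apply D_inj
    have h2 : ∑ j, (D x j - D x' j) • v (k j) = 0 := by
      have h3 : φ x - φ x' = ∑ j, (D x j - D x' j) • v (k j) := by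
        simp only [hφ]
        rw [← Finset.sum_sub_distrib]
        apply Finset.sum_congr rfl
        intro j _
        rw [← sub_smul]
        congr 1
        ring
      rw [← h3, h1, sub_self]
    have h4 : ∑ j, (D x j - D x' j) = 0 := by
      rw [Finset.sum_sub_distrib, D_sum, D_sum, sub_zero]
    intro j
    have h5 := (affineIndependent_iff.1 hind) Finset.univ (fun j => D x j - D x' j) h4 h2 j
      (Finset.mem_univ j)
    linarith
  refine ⟨g '' U, hD U g hUo hgc hgi, ?_, ?_⟩
  · have h0 : (0 : Fin 4 → ℝ) ∈ U := by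
      intro j
      rw [D_zero, add_zero]
      exact hw _ (hkG j)
    refine ⟨0, h0, ?_⟩
    apply hf
    rw [hfg 0 h0, ← hsumv]
    simp only [hφ]
    apply Finset.sum_congr rfl
    intro j _
    rw [D_zero, add_zero]
  · rintro z ⟨x, hx, rfl⟩
    rw [hfg x hx]
    exact hφG x hx

end Pool.Agent.H49.KU.LO1
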